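import Pool.Agent.V8H41.CE.Time

/-!
# Coalition-exchange-stable matchings: the existence problem is NP-complete

Deciding whether an instance of the stable marriage problem (complete strict preference lists) has
a coalition-exchange-stable matching is NP-complete, and the search problem can be solved in
polynomial time if and only if P = NP.
-/

namespace Pool.Agent.Results.MP_bd0f13_lc.CoalitionExchangeNPComplete

open Pool.Agent.NPC Pool.Agent.H673R2 Pool.Agent.V8H41.CE

theorem result :
    NPHardOn IsInstance (fun I : Inst => ∃ M : List ℕ, CEStable I M) ∧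
    InNPP (fun I : Inst => IsInstance I ∧ ∃ M : List ℕ, CEStable I M) ∧
    ((∃ f : List Bool → List Bool, PolyTime f ∧ SolvesSearch IsInstance CEStable f) ↔
      ∀ L : Set (List Bool), InNP L → InP L) :=
  ⟨Pool.Agent.NPC.V8H41CE.hard, Pool.Agent.NPC.V8H41CE.inNPP_stable,
    Pool.Agent.NPC.V8H41CE.search_iff⟩

end Pool.Agent.Results.MP_bd0f13_lc.CoalitionExchangeNPComplete
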